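import Pool.Agent.Lib_MP_92ef0c_ap.Count

/-!
# MP_92ef0c_nt: almost prime pairs with difference `d` in arithmetic progressions, with prescribed
`(Ω(n), Ω(n+d))` modulo `q` up to the diagonal
-/

set_option autoImplicit false

namespace Pool.Agent.Results.MP_92ef0c_nt.AlmostPrimePairs

/-- `n` is an almost prime at height `N` of level `R`: `n` has at most `R` prime factors (with
multiplicity), and apart from a divisor `s ≤ R` all of them are larger than `N ^ (1 / R)` -/
def AlmostPrime (R N n : ℕ) : Prop :=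
  ArithmeticFunction.cardFactors n ≤ R ∧
    ∃ s r : ℕ, n = s * r ∧ s ≤ R ∧ ∀ p : ℕ, p.Prime → p ∣ r → N < p ^ R

/-- For every `d ≥ 1`, `q ≥ 1`, every set `S` of pairs of residues mod `q` that meets every coset of the
diagonal and every residue class `c` mod `B` there are at least `N / (log N) ^ R` numbers `n ≤ N`,
`n ≡ c` mod `B`, with `n` and `n + d` almost primes and `(Ω(n), Ω(n + d))` mod `q` in `S`. -/
theorem result (d B c q : ℕ) (hd : 0 < d) (hB : 0 < B) (hq : 0 < q) (S : Set (ZMod q × ZMod q))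
    (hS : ∀ x y : ZMod q, ∃ j : ZMod q, (x + j, y + j) ∈ S) :
    ∃ R : ℕ, ∀ N : ℕ, R ≤ N →
      (N : ℝ) / (Real.log N) ^ R ≤ (Set.ncard {n : ℕ | 1 ≤ n ∧ n ≤ N ∧ n ≡ c [MOD B] ∧
        AlmostPrime R N n ∧ AlmostPrime R N (n + d) ∧
        ((ArithmeticFunction.cardFactors n : ZMod q),
          (ArithmeticFunction.cardFactors (n + d) : ZMod q)) ∈ S} : ℝ) := by
  have : NeZero q := ⟨hq.ne'⟩
  exact TwQ.main q S (fun x y => by
    obtain ⟨j, hj⟩ := hS x y
    refine ⟨(-j).val, ?_⟩
    rw [ZMod.natCast_zmod_val, sub_neg_eq_add, sub_neg_eq_add]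
    exact hj) d B c hd hB

end Pool.Agent.Results.MP_92ef0c_nt.AlmostPrimePairs
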