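import Pool.Agent.Lib_MP_92ef0c_nt.Final

/-! Unconditional lower bound for the error term in the uniform-in-modulus
Hardy-Littlewood prime pair conjecture. -/

set_option autoImplicit false

namespace Pool.Agent.Results.MP_92ef0c_nt.OmegaPairs

/-- the number of odd primes `p ≡ a [MOD q]` with `p + d` prime and `p + d ≤ x`
(the quantity `π_d(x;a,q)` of the problem). -/
noncomputable def pairCount (d : ℕ) (x : ℝ) (a q : ℕ) : ℕ :=
  ((Finset.range (⌊x⌋₊ + 1)).filter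
    (fun p => p.Prime ∧ p ≠ 2 ∧ (p + d).Prime ∧ p + d ≤ ⌊x⌋₊ ∧ p ≡ a [MOD q])).card

/-- the number `|φ_d(q)|` of residue classes `A` mod `q` with `A` and `A + d` coprime to `q`. -/
def adm (d q : ℕ) : ℕ :=
  ((Finset.range q).filter (fun A => Nat.Coprime A q ∧ Nat.Coprime (A + d) q)).card

/-- `Li_2(x)` -/
noncomputable def Li2 (x : ℝ) : ℝ := ∫ t in (2 : ℝ)..x, 1 / (Real.log t) ^ 2

/-- For every even `d ≥ 2` and every constant `D > 0` (in particular the Hardy-Littlewood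
constant, for which `D / |φ_d(q)| * Li_2(x)` is the main term `M_d(x;q)`), whenever
`(log X)^2 ≤ Q ≤ X^δ` some `x` in `[X, X + Q^12]`, some `q ≤ Q` and some admissible `a` have error
at least `c √Q / log X`. -/
theorem result (d : ℕ) (hd0 : 0 < d) (hd : Even d) (D : ℝ) (hD : 0 < D) :
    ∃ c δ X0 : ℝ, 0 < c ∧ 0 < δ ∧ 3 ≤ X0 ∧ ∀ X : ℝ, X0 ≤ X → ∀ Q : ℕ,
      (Real.log X) ^ 2 ≤ (Q : ℝ) → (Q : ℝ) ≤ X ^ δ →
      ∃ x : ℝ, ∃ q a : ℕ, X ≤ x ∧ x ≤ X + (Q : ℝ) ^ 12 ∧ 0 < q ∧ q ≤ Q ∧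
        Nat.Coprime a q ∧ Nat.Coprime (a + d) q ∧
        c * Real.sqrt Q / Real.log X ≤ |(pairCount d x a q : ℝ) - D / adm d q * Li2 x| :=
  PrimePairOmega.omega_general hd0 hd hD

end Pool.Agent.Results.MP_92ef0c_nt.OmegaPairs
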