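import Pool.Agent.Lib_MP_92ef0c_pb.Q1
import Pool.Agent.Lib_MP_92ef0c_pb.NotQ1

set_option autoImplicit false

/-!
# MP_92ef0c_nt, PairBarrier

For every `d ≥ 1` there is a set `P` of natural numbers without two elements at distance `d`, all
of whose elements `n` have only prime factors above `2 ^ √(log₂ n)`, and for which the
Hardy-Littlewood asymptotics hold, with error `exp (-c √(log x))` relative, for ALL tuples without
internal difference `d`, in all residue classes and intervals with at least `x ^ ε` terms. In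
particular the exact analogue of Q1 for `P` holds for every even `e ≠ d` and fails for `d`.
-/

namespace Pool.Agent.Results.MP_92ef0c_nt.PairBarrier

open Finset

noncomputable section

/-- no two elements of `H` have difference `d` -/
def NoDiff (d : ℕ) (H : Finset ℕ) : Prop := ∀ h ∈ H, ∀ h' ∈ H, h + d ≠ h'

/-- number of residue classes modulo `p` occupied by `H` -/
def nu (H : Finset ℕ) (p : ℕ) : ℕ := (H.image (fun h => h % p)).card

/-- local factor at `p` of the Hardy-Littlewood constant of the tuple `H` in a residue class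
`a` modulo `q` with all `a + h` prime to `q` -/
def loc (H : Finset ℕ) (q p : ℕ) : ℝ :=
  if p ∣ q then ((1 - 1 / (p : ℝ))⁻¹) ^ H.card
  else (1 - (nu H p : ℝ) / p) * ((1 - 1 / (p : ℝ))⁻¹) ^ H.card

/-- `S` is the Hardy-Littlewood constant of the tuple `H` and the modulus `q`: the limit of the
products of the local factors over the primes up to `z` -/
def IsHL (H : Finset ℕ) (q : ℕ) (S : ℝ) : Prop :=
  Filter.Tendsto (fun z => ∏ p ∈ (Icc 1 z).filter Nat.Prime, loc H q p) Filter.atTop (nhds S)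

/-- number of `u < n ≤ v`, `n ≡ a` modulo `q`, with all `n + h`, `h ∈ H`, in `P` -/
def cnt (P : Set ℕ) (H : Finset ℕ) (q a u v : ℕ) : ℕ :=
  open Classical in
  ((Ioc u v).filter (fun n => n ≡ a [MOD q] ∧ ∀ h ∈ H, n + h ∈ P)).card

/-- The statement of Q1 for the pairs `n, n + e` of elements of `P`; for the set `P` of all primes
it is the frozen statement at `d = e`. -/
def PairQ1 (P : Set ℕ) (e : ℕ) : Prop :=
  ∀ B C : ℝ, 0 ≤ B → 0 ≤ C →
    ∃ K : ℝ, ∃ x0 : ℝ, ∀ x : ℝ, x0 ≤ x → ∀ q a : ℕ, 0 < q →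
      (q : ℝ) ≤ (Real.log x) ^ B →
      Nat.Coprime a q → Nat.Coprime (a + e) q →
      |(open Classical in (((Finset.range (⌊x⌋₊ + 1)).filter
            (fun n => n ∈ P ∧ n + e ∈ P ∧ n ≡ a [MOD q])).card : ℝ))
        - 2 / (((Finset.range q).filter
              (fun A => Nat.Coprime A q ∧ Nat.Coprime (A + e) q)).card : ℝ)
          * (∏ p ∈ e.primeFactors.filter (fun p => 2 < p),
              (((p : ℝ) - 1) / ((p : ℝ) - 2)))
          * (∏' p : {p : ℕ // p.Prime ∧ 2 < p}, (1 - 1 / (((p : ℕ) : ℝ) - 1) ^ 2))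
          * (∫ t in (2 : ℝ)..x, 1 / (Real.log t) ^ 2)|
        ≤ K * x / (Real.log x) ^ C

end

theorem result (d : ℕ) (hd : 0 < d) :
    ∃ P : Set ℕ, (∀ n ∈ P, n + d ∉ P) ∧
      (∀ n ∈ P, ∀ p, p.Prime → p ∣ n → 2 ^ Nat.sqrt (Nat.log 2 n) < p) ∧
      (∀ H : Finset ℕ, NoDiff d H →
        (∀ q : ℕ, 0 < q → ∃ S : ℝ, IsHL H q S) ∧
        ∀ ε : ℝ, 0 < ε → ∃ c K : ℝ, 0 < c ∧ 0 < K ∧
          ∀ x q a u v : ℕ, 2 ≤ x → 0 < q → (∀ h ∈ H, Nat.Coprime (a + h) q) → u ≤ v → v ≤ x →
            (q : ℝ) * (x : ℝ) ^ ε ≤ (v : ℝ) - u → ∀ S : ℝ, IsHL H q S →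
            |(cnt P H q a u v : ℝ) -
              S / q * ∫ t in (max (u : ℝ) 2)..(v : ℝ), 1 / (Real.log t) ^ H.card| ≤
              K * (((v : ℝ) - u) / q) * Real.exp (-(c * √(Real.log x)))) ∧
      ∀ e : ℕ, 0 < e → Even e → (PairQ1 P e ↔ e ≠ d) := by
  obtain ⟨P, h1, h2, h3⟩ := Pool.MP_92ef0c_nt.PB.main d hd
  refine ⟨P, h1, h2, ?_, ?_⟩
  · intro H hH
    exact ⟨fun q hq => Pool.MP_92ef0c_nt.PB.HL_exists H q hq, h3 H hH⟩
  · intro e he0 he
    constructor
    · rintro hQ rfl
      obtain ⟨K, x0, hK⟩ := hQ 0 3 le_rfl (by norm_num)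
      obtain ⟨x, hx, hx1, hx2⟩ := Pool.MP_92ef0c_nt.PB.main_term_large e K x0
      have h4 := hK x hx 1 0 one_pos (by rw [Nat.cast_one]; exact hx1) (Nat.coprime_one_right 0)
        (Nat.coprime_one_right (0 + e))
      have h5 : (open Classical in (((Finset.range (⌊x⌋₊ + 1)).filter
            (fun n => n ∈ P ∧ n + e ∈ P ∧ n ≡ 0 [MOD 1])).card : ℝ)) = 0 := by
        classical
        rw [Nat.cast_eq_zero]
        exact Finset.card_eq_zero.2 (Finset.filter_eq_empty_iff.2
          (fun n _ h6 => h1 n h6.1 h6.2.1))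
      rw [h5] at h4
      exact absurd hx2 (not_lt.2 h4)
    · intro hne B C hB hC
      have hND : NoDiff d {0, e} := by
        intro h hh h' hh'
        rw [mem_insert, mem_singleton] at hh hh'
        rcases hh with rfl | rfl <;> rcases hh' with rfl | rfl <;> omega
      exact Pool.MP_92ef0c_nt.PB.q1_of_main P e he0 he (h3 {0, e} hND) B C hB hC

end Pool.Agent.Results.MP_92ef0c_nt.PairBarrier
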